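import Mathlib.Analysis.Calculus.DifferentialForm.Basic
import Mathlib.Analysis.Normed.Module.FiniteDimension
import Mathlib.MeasureTheory.Integral.Bochner.Set
import Mathlib.MeasureTheory.Measure.Lebesgue.Basic

/-! Row MP_c8d41b_gt: the definitions used by the statement. -/

open scoped ContDiff Topology
open Set

noncomputable section

namespace Pool.Agent.MP_c8d41b_gt.St

/-! ### The intersection form of a regular level set `C = G⁻¹(0)` in a normed space `E` -/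

section Forms
variable {E : Type} [NormedAddCommGroup E] [NormedSpace ℝ E] {K d κ : ℕ}

/-- `0` is a regular value of `G` -/
def Reg (G : E → Fin K → ℝ) : Prop := ∀ x, G x = 0 → Function.Surjective (fderiv ℝ G x)

/-- a smooth `κ`-form on the ambient space whose support meets `C` in a compact set -/
structure Fm (G : E → Fin K → ℝ) (α : E → E [⋀^Fin κ]→L[ℝ] ℝ) : Prop where
  sm : ContDiff ℝ ∞ α
  cpt : IsCompact (tsupport α ∩ G ⁻¹' {0})

/-- such a form whose restriction to `C` is closed: `dα` vanishes on the tangent spaces of `C` -/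
structure Cl (G : E → Fin K → ℝ) (α : E → E [⋀^Fin κ]→L[ℝ] ℝ) : Prop where
  fm : Fm G α
  cl : ∀ x, G x = 0 → ∀ v : Fin (κ + 1) → E, (∀ i, fderiv ℝ G x (v i) = 0) → extDeriv α x v = 0

/-- the value of the wedge product `a ∧ b` on `κ + κ` vectors -/
def wedge (a b : (Fin κ → E) → ℝ) (v : Fin (κ + κ) → E) : ℝ :=
  (∑ σ : Equiv.Perm (Fin (κ + κ)), ((Equiv.Perm.sign σ : ℤ) : ℝ) *
    (a (fun i => v (σ (Fin.castAdd κ i))) * b fun i => v (σ (Fin.natAdd κ i)))) /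
    (κ.factorial * κ.factorial)

/-- positively oriented local parametrisation of `C` (`J` orients the ambient space) -/
structure Chart (G : E → Fin K → ℝ) (J : E ≃L[ℝ] (Fin d → ℝ) × (Fin K → ℝ))
    (φ : (Fin d → ℝ) → E) (V : Set (Fin d → ℝ)) : Prop where
  op : IsOpen V
  sm : ContDiffOn ℝ ∞ φ V
  inj : InjOn φ V
  mem : ∀ t ∈ V, G (φ t) = 0
  pos : ∀ t ∈ V, ∃ Y : (Fin K → ℝ) →L[ℝ] E,
    (fderiv ℝ G (φ t)).comp Y = ContinuousLinearMap.id ℝ _ ∧
    0 < ((J : E →L[ℝ] _).comp ((fderiv ℝ φ t).coprod Y)).det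

/-- `B α β` is the integral of `α ∧ β` over `C`: additive in `α`, and given by the usual
formula when the support of `α` on `C` lies in a positive chart -/
structure IsInt (G : E → Fin K → ℝ) (J : E ≃L[ℝ] (Fin (κ + κ) → ℝ) × (Fin K → ℝ))
    (B : (E → E [⋀^Fin κ]→L[ℝ] ℝ) → (E → E [⋀^Fin κ]→L[ℝ] ℝ) → ℝ) : Prop where
  add : ∀ α α' β, Fm G α → Fm G α' → Fm G β → B (α + α') β = B α β + B α' β
  chart : ∀ φ V, Chart G J φ V → ∀ α β, Fm G α → Fm G β → tsupport α ∩ G ⁻¹' {0} ⊆ φ '' V →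
    B α β = ∫ t in V, wedge (α (φ t)) (β (φ t)) fun i => fderiv ℝ φ t (Pi.single i 1)

/-- `n` closed compactly supported `κ`-forms on whose span `ε * B` is positive definite -/
structure Defin (G : E → Fin K → ℝ)
    (B : (E → E [⋀^Fin κ]→L[ℝ] ℝ) → (E → E [⋀^Fin κ]→L[ℝ] ℝ) → ℝ) (ε : ℝ) (n : ℕ)
    (v : Fin n → E → E [⋀^Fin κ]→L[ℝ] ℝ) : Prop where
  cl : ∀ i, Cl G (v i)
  pos : ∀ c : Fin n → ℝ, c ≠ 0 → 0 < ε * B (∑ i, c i • v i) (∑ i, c i • v i)

/-- the `2κ`-manifold `C` has signature zero: `b₊ = b₋`, both finite -/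
def SigZero (G : E → Fin K → ℝ) (κ : ℕ) : Prop :=
  ∀ J : E ≃L[ℝ] (Fin (κ + κ) → ℝ) × (Fin K → ℝ), (∃ B, IsInt G J B) ∧ ∀ B, IsInt G J B →
    ∃ n, IsGreatest {m | ∃ v, Defin G B 1 m v} n ∧ IsGreatest {m | ∃ v, Defin G B (-1) m v} n

end Forms

/-! ### Generating functions over `M = g⁻¹(0)` -/

section Gen
variable {p q k : ℕ}

/-- base times fibre -/
abbrev Tot (p k : ℕ) : Type := (Fin p → ℝ) × (Fin k → ℝ)

/-- `M = g⁻¹(0)` is a compact regular level set -/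
structure Base (g : (Fin p → ℝ) → Fin q → ℝ) : Prop where
  sm : ContDiff ℝ ∞ g
  cpt : IsCompact {z | ‖g z‖ ≤ 1}
  reg : Reg g

/-- fibre derivative -/
def dv (f : Tot p k → ℝ) (y : Tot p k) : Fin k → ℝ := fun i => fderiv ℝ f y (0, Pi.single i 1)

/-- equations of the fibre-critical set over `M` -/
def crit (g : (Fin p → ℝ) → Fin q → ℝ) (f : Tot p k → ℝ) (y : Tot p k) : Fin (k + q) → ℝ :=
  Fin.append (dv f y) (g y.1)

/-- `f` generates an embedded Lagrangian in `T^*M`: the fibre-critical set is cut out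
transversally, and the map `(z, v) ↦ (z, d_z f` restricted to `T_z M)` is injective on it -/
structure Gen (g : (Fin p → ℝ) → Fin q → ℝ) (f : Tot p k → ℝ) : Prop where
  reg : Reg (crit g f)
  inj : ∀ z v v', crit g f (z, v) = 0 → crit g f (z, v') = 0 →
    (∀ w, fderiv ℝ g z w = 0 → fderiv ℝ f (z, v) (w, 0) = fderiv ℝ f (z, v') (w, 0)) → v = v'

/-- a homotopy of functions from `f₀` to `f₁`, controlled at infinity near `M` -/
structure Path (g : (Fin p → ℝ) → Fin q → ℝ) (F : ℝ × Tot p k → ℝ) (f₀ f₁ : Tot p k → ℝ) :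
    Prop where
  sm : ContDiff ℝ ∞ F
  left : ∀ r ≤ 0, ∀ y, F (r, y) = f₀ y
  right : ∀ r ≥ 1, ∀ y, F (r, y) = f₁ y
  far : ∃ R m : ℝ, 0 < m ∧ ∀ r y, ‖g y.1‖ ≤ 1 → R ≤ ‖y.2‖ → m ≤ ‖dv (fun y => F (r, y)) y‖
  bdd : ∃ K₀ : ℝ, ∀ r y, ‖g y.1‖ ≤ 1 → |F (r, y) - f₀ y| ≤ K₀

/-- equations of the cobordism `C`: the fibre-critical set of the homotopy -/
def cob (g : (Fin p → ℝ) → Fin q → ℝ) (F : ℝ × Tot p k → ℝ) (x : ℝ × Tot p k) :
    Fin (k + q) → ℝ :=
  crit g (fun y => F (x.1, y)) x.2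

end Gen

end Pool.Agent.MP_c8d41b_gt.St
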